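import Mathlib

/-!
# Reshetnyak gluing theorem (convex subsets of one metric space)

`CAT0On S`: the subset `S` of a metric space is geodesic (with the induced metric) and satisfies
the CAT(0) inequality in Stewart form.  The main theorem `CAT0On.union` glues two such sets.
-/

namespace SqGeo

open Set

variable {X : Type*} [MetricSpace X]

/-- Stewart form of the CAT(0) inequality for the triangle `p q r` and the point `s`. -/
def St (p q r s : X) : Prop :=
  (dist q s + dist s r) * dist p s ^ 2 ≤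
    dist s r * dist p q ^ 2 + dist q s * dist p r ^ 2
      - dist q s * dist s r * (dist q s + dist s r)

/-- `S` with the induced metric is geodesic. -/
def GeoOn (S : Set X) : Prop :=
  ∀ x ∈ S, ∀ y ∈ S, ∀ u : ℝ, 0 ≤ u → u ≤ dist x y →
    ∃ z ∈ S, dist x z = u ∧ dist z y = dist x y - u

/-- `S` with the induced metric is a CAT(0) space. -/
structure CAT0On (S : Set X) : Prop where
  geo : GeoOn S
  st : ∀ p ∈ S, ∀ q ∈ S, ∀ r ∈ S, ∀ s ∈ S, dist q s + dist s r = dist q r → St p q r s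

/-- Uniqueness of points on geodesics. -/
theorem CAT0On.unique {S : Set X} (hS : CAT0On S) {x y z w : X} (hx : x ∈ S) (hy : y ∈ S)
    (hz : z ∈ S) (hw : w ∈ S) (h1 : dist x z + dist z y = dist x y)
    (h2 : dist x w + dist w y = dist x y) (h3 : dist x z = dist x w) : z = w := by
  have h := hS.st z hz x hx y hy w hw h2
  unfold St at h
  have e1 : dist z x = dist x w := by rw [dist_comm, h3]
  have e2 : dist z y = dist w y := by linarith
  rw [e1, e2] at h
  have h4 : (dist x w + dist w y) * dist z w ^ 2 ≤ 0 := by nlinarith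
  rcases eq_or_lt_of_le (add_nonneg (dist_nonneg (x := x) (y := w)) (dist_nonneg (x := w) (y := y)))
    with h5 | h5
  · have h6 : dist x y = 0 := by rw [← h2, ← h5]
    have h7 : dist x z = 0 := le_antisymm (by
      have := dist_nonneg (x := z) (y := y); linarith) dist_nonneg
    have h8 : dist x w = 0 := by rw [← h3, h7]
    rw [dist_eq_zero] at h7 h8
    rw [← h7, ← h8]
  · have h6 : dist z w ^ 2 ≤ 0 := by
      by_contra hc
      push Not at hc
      nlinarith
    have h7 : dist z w = 0 := by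
      have := sq_nonneg (dist z w)
      exact pow_eq_zero_iff (n := 2) (by norm_num) |>.mp (le_antisymm h6 this)
    exact dist_eq_zero.mp h7

/-- composition of Stewart inequalities: `s` on `[q,a]`, `a` on `[q,r]`. -/
theorem St.comp {p q r s a : X} (h1 : dist q s + dist s a = dist q a)
    (h2 : dist q a + dist a r = dist q r) (h3 : St p q a s) (h4 : St p q r a) :
    St p q r s := by
  have h5 : dist q s + dist s r = dist q r := by
    have t1 := dist_triangle q s r
    have t2 := dist_triangle s a r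
    linarith
  have h6 : dist s r = dist s a + dist a r := by linarith
  unfold St at *
  have n1 := dist_nonneg (x := q) (y := s)
  have n2 := dist_nonneg (x := s) (y := a)
  have n3 := dist_nonneg (x := a) (y := r)
  rw [h1] at h3
  rw [h2] at h4
  rw [h5, h6]
  set x := dist q s
  set y := dist s a
  set z := dist a r
  have hqa : dist q a = x + y := h1.symm
  have hqr : dist q r = x + y + z := by rw [← h2, hqa]
  rw [hqa] at h3 h4
  rw [hqr] at h4 ⊢
  rcases eq_or_lt_of_le (add_nonneg n1 n2) with h0 | h0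
  · have hx : x = 0 := by linarith
    have hy : y = 0 := by linarith
    have hqs : q = s := dist_eq_zero.mp hx
    subst hqs
    rw [hx, hy]
    nlinarith [sq_nonneg (dist p q)]
  · -- multiply by (x+y)
    have key : (x + y) * ((x + y + z) * dist p s ^ 2) ≤ (x + y) * ((y + z) * dist p q ^ 2
        + x * dist p r ^ 2 - x * (y + z) * (x + y + z)) := by
      have e3 : (x + y + z) * ((x + y) * dist p s ^ 2) ≤
          (x + y + z) * (y * dist p q ^ 2 + x * dist p a ^ 2 - x * y * (x + y)) :=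
        mul_le_mul_of_nonneg_left h3 (by linarith)
      have e4 : x * ((x + y + z) * dist p a ^ 2) ≤
          x * (z * dist p q ^ 2 + (x + y) * dist p r ^ 2 - (x + y) * z * (x + y + z)) :=
        mul_le_mul_of_nonneg_left h4 n1
      nlinarith
    exact le_of_mul_le_mul_left key h0

theorem St.symm {p q r s : X} (h : St p q r s) : St p r q s := by
  unfold St at *
  rw [dist_comm r s, dist_comm s q]
  nlinarith

/-! ### Planar trigonometry -/

/-- comparison angle -/
noncomputable def cang (x y z : ℝ) : ℝ := Real.arccos ((x ^ 2 + y ^ 2 - z ^ 2) / (2 * x * y))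

theorem cang_nonneg (x y z : ℝ) : 0 ≤ cang x y z := Real.arccos_nonneg _
theorem cang_le_pi (x y z : ℝ) : cang x y z ≤ Real.pi := Real.arccos_le_pi _

theorem cang_law {x y z : ℝ} (hx : 0 < x) (hy : 0 < y) (h1 : z ≤ x + y)
    (h2 : x ≤ y + z) (h3 : y ≤ x + z) : z ^ 2 = x ^ 2 + y ^ 2 - 2 * x * y * Real.cos (cang x y z) := by
  have hxy : 0 < 2 * x * y := by positivity
  have hz : 0 ≤ z := by linarith
  unfold cang
  rw [Real.cos_arccos]
  · field_simp
    ring
  · rw [le_div_iff₀ hxy]; nlinarith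
  · rw [div_le_iff₀ hxy]; nlinarith

/-- distance between points of polar coordinates `(x,0)` and `(y,θ)` -/
noncomputable def pd (x y θ : ℝ) : ℝ := Real.sqrt (x ^ 2 + y ^ 2 - 2 * x * y * Real.cos θ)

theorem pd_arg_nonneg (x y θ : ℝ) (hx : 0 ≤ x) (hy : 0 ≤ y) :
    0 ≤ x ^ 2 + y ^ 2 - 2 * x * y * Real.cos θ := by
  have h := Real.cos_le_one θ
  have : 2 * x * y * Real.cos θ ≤ 2 * x * y := by
    have : 0 ≤ 2 * x * y := by positivity
    nlinarith
  nlinarith [sq_nonneg (x - y)]

theorem pd_triangle (x m y θ₁ θ₂ : ℝ) :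
    pd x y (θ₁ + θ₂) ≤ pd x m θ₁ + pd m y θ₂ := by
  have key : ∀ a b α β : ℝ, ‖(a : ℂ) * Complex.exp (α * Complex.I) -
      b * Complex.exp (β * Complex.I)‖ = pd a b (β - α) := by
    intro a b α β
    unfold pd
    rw [Complex.norm_def, Complex.normSq_apply]
    congr 1
    simp only [Complex.sub_re, Complex.mul_re, Complex.ofReal_re, Complex.ofReal_im,
      Complex.exp_ofReal_mul_I_re, Complex.exp_ofReal_mul_I_im, Complex.sub_im, Complex.mul_im]
    rw [Real.cos_sub]
    nlinarith [Real.sin_sq_add_cos_sq α, Real.sin_sq_add_cos_sq β]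
  have h := norm_sub_le_norm_sub_add_norm_sub ((x : ℂ) * Complex.exp ((0:ℝ) * Complex.I))
    ((m : ℂ) * Complex.exp (θ₁ * Complex.I)) ((y : ℂ) * Complex.exp ((θ₁ + θ₂ : ℝ) * Complex.I))
  rw [key, key, key] at h
  simpa using h

theorem pd_ge (x m θ : ℝ) : x - m * Real.cos θ ≤ pd x m θ := by
  unfold pd
  apply Real.le_sqrt_of_sq_le
  nlinarith [Real.sin_sq_add_cos_sq θ, sq_nonneg (m * Real.sin θ)]

theorem pd_comm (x m θ : ℝ) : pd x m θ = pd m x θ := by
  unfold pd; congr 1; ring

theorem cos_add_cos_nonpos {a b : ℝ} (ha : 0 ≤ a) (ha' : a ≤ Real.pi) (hb : 0 ≤ b)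
    (hb' : b ≤ Real.pi) (h : Real.pi ≤ a + b) : Real.cos a + Real.cos b ≤ 0 := by
  have h1 : Real.cos a ≤ Real.cos (Real.pi - b) :=
    Real.cos_le_cos_of_nonneg_of_le_pi (by linarith) ha' (by linarith)
  rw [Real.cos_pi_sub] at h1
  linarith

/-- straight points: the planar distance between the points of the line -/
theorem pd_line (h β γ : ℝ) (hβ : Real.cos β ≠ 0) (hγ : Real.cos γ ≠ 0) :
    pd (h / Real.cos β) (h / Real.cos γ) (γ - β) = |h * (Real.tan γ - Real.tan β)| := by
  unfold pd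
  rw [← Real.sqrt_sq_eq_abs]
  congr 1
  rw [Real.cos_sub, Real.tan_eq_sin_div_cos, Real.tan_eq_sin_div_cos]
  field_simp
  have e1 := Real.sin_sq_add_cos_sq β
  have e2 := Real.sin_sq_add_cos_sq γ
  linear_combination (-h ^ 2 * Real.cos β ^ 2) * e2 + (-h ^ 2 * Real.cos γ ^ 2) * e1

/-- Contraction towards a vertex: CAT(0) inequality used twice. -/
theorem CAT0On.shrink {S : Set X} (hS : CAT0On S) {e z w z' w' : X} (he : e ∈ S) (hz : z ∈ S)
    (hw : w ∈ S) (hz' : z' ∈ S) (hw' : w' ∈ S) (h1 : dist e z' + dist z' z = dist e z)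
    (h2 : dist e w' + dist w' w = dist e w) (p1 : 0 < dist e z) (p2 : 0 < dist e w) :
    dist z' w' ≤ pd (dist e z') (dist e w') (cang (dist e z) (dist e w) (dist z w)) := by
  have s1 := hS.st w hw e he z hz z' hz' h1
  have s2 := hS.st z' hz' e he w hw w' hw' h2
  unfold St at s1 s2
  rw [h1] at s1
  rw [h2] at s2
  unfold pd
  apply Real.le_sqrt_of_sq_le
  have law := cang_law (x := dist e z) (y := dist e w) (z := dist z w) p1 p2
    (by have := dist_triangle z e w; rw [dist_comm z e] at this; linarith)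
    (by have := dist_triangle e w z; rw [dist_comm w z] at this; linarith)
    (by have := dist_triangle e z w; linarith)
  set c := Real.cos (cang (dist e z) (dist e w) (dist z w))
  rw [dist_comm w z', dist_comm w e, dist_comm w z] at s1
  rw [dist_comm z' e] at s2
  set Z := dist e z
  set W := dist e w
  set x := dist e z'
  set y := dist e w'
  have hx : dist z' z = Z - x := by linarith
  have hy : dist w' w = W - y := by linarith
  rw [hx] at s1
  rw [hy] at s2
  have n1 : 0 ≤ x := dist_nonneg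
  have n2 : 0 ≤ y := dist_nonneg
  have n3 : 0 ≤ Z - x := by rw [← hx]; exact dist_nonneg
  have n4 : 0 ≤ W - y := by rw [← hy]; exact dist_nonneg
  -- multiply
  have m1 : y * (Z * dist z' w ^ 2) ≤ y * ((Z - x) * W ^ 2 + x * dist z w ^ 2
      - x * (Z - x) * Z) := by
    apply mul_le_mul_of_nonneg_left _ n2
    linarith
  have m2 : Z * (W * dist z' w' ^ 2) ≤ Z * ((W - y) * x ^ 2 + y * dist z' w ^ 2
      - y * (W - y) * W) := by
    apply mul_le_mul_of_nonneg_left _ p1.le
    linarith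
  have m3 : (Z * W) * dist z' w' ^ 2 ≤ (Z * W) * (x ^ 2 + y ^ 2 - 2 * x * y * c) := by
    rw [law] at m1
    nlinarith
  exact le_of_mul_le_mul_left m3 (by positivity)

/-- hypotheses for gluing -/
structure GluePair (S T : Set X) : Prop where
  hS : CAT0On S
  hT : CAT0On T
  hA : GeoOn (S ∩ T)
  sep : ∀ x ∈ S, ∀ y ∈ T, ∃ a ∈ S ∩ T, dist x a + dist a y = dist x y

theorem GluePair.symm {S T : Set X} (h : GluePair S T) : GluePair T S where
  hS := h.hT
  hT := h.hS
  hA := by rw [inter_comm]; exact h.hA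
  sep := by
    intro x hx y hy
    obtain ⟨a, ha, e⟩ := h.sep y hy x hx
    refine ⟨a, ⟨ha.2, ha.1⟩, ?_⟩
    rw [dist_comm x a, dist_comm a y, dist_comm x y]
    linarith

/-- points in a common piece -/
def Com (S T : Set X) (x y : X) : Prop := (x ∈ S ∧ y ∈ S) ∨ (x ∈ T ∧ y ∈ T)

theorem Com.symm {S T : Set X} {x y : X} (h : Com S T x y) : Com S T y x :=
  h.imp (fun h => ⟨h.2, h.1⟩) (fun h => ⟨h.2, h.1⟩)

theorem GluePair.cross {S T : Set X} (h : GluePair S T) {x y : X} (hx : x ∈ S ∪ T)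
    (hy : y ∈ S ∪ T) : ∃ c, Com S T x c ∧ Com S T c y ∧ dist x c + dist c y = dist x y := by
  rcases hx with hx | hx <;> rcases hy with hy | hy
  · exact ⟨y, Or.inl ⟨hx, hy⟩, Or.inl ⟨hy, hy⟩, by simp⟩
  · obtain ⟨a, ha, e⟩ := h.sep x hx y hy
    exact ⟨a, Or.inl ⟨hx, ha.1⟩, Or.inr ⟨ha.2, hy⟩, e⟩
  · obtain ⟨a, ha, e⟩ := h.symm.sep x hx y hy
    exact ⟨a, Or.inr ⟨hx, ha.1⟩, Or.inl ⟨ha.2, hy⟩, e⟩
  · exact ⟨y, Or.inr ⟨hx, hy⟩, Or.inr ⟨hy, hy⟩, by simp⟩

/-- a point on `[e,z]` in all pieces containing `z` -/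
theorem GluePair.pt {S T : Set X} (h : GluePair S T) {e z : X} (he : e ∈ S ∩ T)
    (hz : z ∈ S ∪ T) (u : ℝ) (h0 : 0 ≤ u) (h1 : u ≤ dist e z) :
    ∃ z', (z ∈ S → z' ∈ S) ∧ (z ∈ T → z' ∈ T) ∧ dist e z' = u ∧ dist z' z = dist e z - u := by
  by_cases a : z ∈ S <;> by_cases b : z ∈ T
  · obtain ⟨z', h2, h3, h4⟩ := h.hA e he z ⟨a, b⟩ u h0 h1
    exact ⟨z', fun _ => h2.1, fun _ => h2.2, h3, h4⟩
  · obtain ⟨z', h2, h3, h4⟩ := h.hS.geo e he.1 z a u h0 h1
    exact ⟨z', fun _ => h2, fun h => absurd h b, h3, h4⟩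
  · obtain ⟨z', h2, h3, h4⟩ := h.hT.geo e he.2 z b u h0 h1
    exact ⟨z', fun h => absurd h a, fun _ => h2, h3, h4⟩
  · exact absurd hz (by simp [a, b])

theorem GluePair.shrink {S T : Set X} (h : GluePair S T) {e z w z' w' : X} (he : e ∈ S ∩ T)
    (hc : Com S T z w) (hz1 : z ∈ S → z' ∈ S) (hz2 : z ∈ T → z' ∈ T)
    (hw1 : w ∈ S → w' ∈ S) (hw2 : w ∈ T → w' ∈ T)
    (h1 : dist e z' + dist z' z = dist e z)
    (h2 : dist e w' + dist w' w = dist e w) (p1 : 0 < dist e z) (p2 : 0 < dist e w) :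
    dist z' w' ≤ pd (dist e z') (dist e w') (cang (dist e z) (dist e w) (dist z w)) := by
  rcases hc with ⟨hz, hw⟩ | ⟨hz, hw⟩
  · exact h.hS.shrink he.1 hz hw (hz1 hz) (hw1 hw) h1 h2 p1 p2
  · exact h.hT.shrink he.2 hz hw (hz2 hz) (hw2 hw) h1 h2 p1 p2

/-- The chain lemma: the comparison angles along a chain from `z₀` to `z₄` around a point `e`
between them add up to at least `π`. -/
theorem GluePair.chain {S T : Set X} (h : GluePair S T) {e z0 z1 z2 z3 z4 : X} (he : e ∈ S ∩ T)
    (c1 : Com S T z0 z1) (c2 : Com S T z1 z2) (c3 : Com S T z2 z3) (c4 : Com S T z3 z4)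
    (n0 : e ≠ z0) (n1 : e ≠ z1) (n2 : e ≠ z2) (n3 : e ≠ z3) (n4 : e ≠ z4)
    (hb : dist z0 e + dist e z4 = dist z0 z4) :
    Real.pi ≤ cang (dist e z0) (dist e z1) (dist z0 z1) + cang (dist e z1) (dist e z2) (dist z1 z2)
      + cang (dist e z2) (dist e z3) (dist z2 z3) + cang (dist e z3) (dist e z4) (dist z3 z4) := by
  set θ1 := cang (dist e z0) (dist e z1) (dist z0 z1) with hθ1
  set θ2 := cang (dist e z1) (dist e z2) (dist z1 z2) with hθ2
  set θ3 := cang (dist e z2) (dist e z3) (dist z2 z3) with hθ3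
  set θ4 := cang (dist e z3) (dist e z4) (dist z3 z4) with hθ4
  by_contra hlt
  push Not at hlt
  have t1 : 0 ≤ θ1 := cang_nonneg _ _ _
  have t2 : 0 ≤ θ2 := cang_nonneg _ _ _
  have t3 : 0 ≤ θ3 := cang_nonneg _ _ _
  have t4 : 0 ≤ θ4 := cang_nonneg _ _ _
  set Θ := θ1 + θ2 + θ3 + θ4 with hΘ
  -- angles of the rays
  set b0 := -(Θ / 2) with hb0
  set b1 := θ1 - Θ / 2 with hb1
  set b2 := θ1 + θ2 - Θ / 2 with hb2
  set b3 := θ1 + θ2 + θ3 - Θ / 2 with hb3
  set b4 := Θ / 2 with hb4
  have cpos : ∀ b : ℝ, -(Θ / 2) ≤ b → b ≤ Θ / 2 → 0 < Real.cos b := fun b h1 h2 =>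
    Real.cos_pos_of_mem_Ioo ⟨by linarith, by linarith⟩
  have k0 : 0 < Real.cos b0 := cpos _ (by linarith) (by linarith)
  have k1 : 0 < Real.cos b1 := cpos _ (by linarith) (by linarith)
  have k2 : 0 < Real.cos b2 := cpos _ (by linarith) (by linarith)
  have k3 : 0 < Real.cos b3 := cpos _ (by linarith) (by linarith)
  have k4 : 0 < Real.cos b4 := cpos _ (by linarith) (by linarith)
  have d0 : 0 < dist e z0 := dist_pos.mpr n0
  have d1 : 0 < dist e z1 := dist_pos.mpr n1
  have d2 : 0 < dist e z2 := dist_pos.mpr n2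
  have d3 : 0 < dist e z3 := dist_pos.mpr n3
  have d4 : 0 < dist e z4 := dist_pos.mpr n4
  -- a small scale
  obtain ⟨τ, hτ, g0, g1, g2, g3, g4⟩ : ∃ τ : ℝ, 0 < τ ∧ τ / Real.cos b0 ≤ dist e z0 ∧
      τ / Real.cos b1 ≤ dist e z1 ∧ τ / Real.cos b2 ≤ dist e z2 ∧ τ / Real.cos b3 ≤ dist e z3 ∧
      τ / Real.cos b4 ≤ dist e z4 := by
    refine ⟨min (dist e z0 * Real.cos b0) (min (dist e z1 * Real.cos b1)
      (min (dist e z2 * Real.cos b2) (min (dist e z3 * Real.cos b3)
      (dist e z4 * Real.cos b4)))), ?_, ?_, ?_, ?_, ?_, ?_⟩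
    · simp only [lt_min_iff]
      exact ⟨by positivity, by positivity, by positivity, by positivity, by positivity⟩
    all_goals
      rw [div_le_iff₀ (by assumption)]
      simp only [min_le_iff, le_refl, true_or, or_true]
  have Hcom : ∀ {a b : X}, Com S T a b → a ∈ S ∪ T ∧ b ∈ S ∪ T := by
    rintro a b (⟨h1, h2⟩ | ⟨h1, h2⟩)
    · exact ⟨Or.inl h1, Or.inl h2⟩
    · exact ⟨Or.inr h1, Or.inr h2⟩
  obtain ⟨y0, s0, u0, e0, f0⟩ := h.pt he (Hcom c1).1 _ (div_nonneg hτ.le k0.le) g0
  obtain ⟨y1, s1, u1, e1, f1⟩ := h.pt he (Hcom c1).2 _ (div_nonneg hτ.le k1.le) g1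
  obtain ⟨y2, s2, u2, e2, f2⟩ := h.pt he (Hcom c2).2 _ (div_nonneg hτ.le k2.le) g2
  obtain ⟨y3, s3, u3, e3, f3⟩ := h.pt he (Hcom c3).2 _ (div_nonneg hτ.le k3.le) g3
  obtain ⟨y4, s4, u4, e4, f4⟩ := h.pt he (Hcom c4).2 _ (div_nonneg hτ.le k4.le) g4
  have q1 := h.shrink he c1 s0 u0 s1 u1 (by linarith) (by linarith) d0 d1
  have q2 := h.shrink he c2 s1 u1 s2 u2 (by linarith) (by linarith) d1 d2
  have q3 := h.shrink he c3 s2 u2 s3 u3 (by linarith) (by linarith) d2 d3
  have q4 := h.shrink he c4 s3 u3 s4 u4 (by linarith) (by linarith) d3 d4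
  rw [← hθ1, e0, e1, show θ1 = b1 - b0 by rw [hb1, hb0]; ring, pd_line _ _ _ k0.ne' k1.ne'] at q1
  rw [← hθ2, e1, e2, show θ2 = b2 - b1 by rw [hb1, hb2]; ring, pd_line _ _ _ k1.ne' k2.ne'] at q2
  rw [← hθ3, e2, e3, show θ3 = b3 - b2 by rw [hb3, hb2]; ring, pd_line _ _ _ k2.ne' k3.ne'] at q3
  rw [← hθ4, e3, e4, show θ4 = b4 - b3 by rw [hb4, hb3, hΘ]; ring,
    pd_line _ _ _ k3.ne' k4.ne'] at q4
  have tanmono : ∀ a b : ℝ, -(Θ / 2) ≤ a → a ≤ b → b ≤ Θ / 2 → Real.tan a ≤ Real.tan b := by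
    intro a b h1 h2 h3
    rcases eq_or_lt_of_le h2 with h4 | h4
    · rw [h4]
    · exact (Real.tan_lt_tan_of_lt_of_lt_pi_div_two (by linarith) (by linarith) h4).le
  have m1 := tanmono b0 b1 (by linarith) (by linarith) (by linarith)
  have m2 := tanmono b1 b2 (by linarith) (by linarith) (by linarith)
  have m3 := tanmono b2 b3 (by linarith) (by linarith) (by linarith)
  have m4 := tanmono b3 b4 (by linarith) (by linarith) (by linarith)
  rw [abs_of_nonneg (mul_nonneg hτ.le (by linarith))] at q1 q2 q3 q4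
  -- the total
  have tot : dist y0 y4 ≤ τ * (Real.tan b4 - Real.tan b0) := by
    have r1 := dist_triangle y0 y1 y4
    have r2 := dist_triangle y1 y2 y4
    have r3 := dist_triangle y2 y3 y4
    nlinarith
  have low : τ / Real.cos b0 + τ / Real.cos b4 ≤ dist y0 y4 := by
    have r1 := dist_triangle z0 y0 z4
    have r2 := dist_triangle y0 y4 z4
    rw [dist_comm z0 y0] at r1
    rw [dist_comm z0 e] at hb
    linarith
  have hcos : Real.cos b0 = Real.cos b4 := by rw [hb0, hb4, Real.cos_neg]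
  have htan : Real.tan b0 = - Real.tan b4 := by rw [hb0, hb4, Real.tan_neg]
  rw [htan, Real.tan_eq_sin_div_cos] at tot
  rw [hcos] at low
  have fin : τ * (2 * Real.sin b4) / Real.cos b4 < 2 * τ / Real.cos b4 := by
    apply div_lt_div_of_pos_right _ k4
    have : Real.sin b4 < 1 := by
      have := Real.sin_lt_sin_of_lt_of_le_pi_div_two (x := b4) (y := Real.pi / 2)
        (by linarith) (le_refl _) (by linarith)
      rwa [Real.sin_pi_div_two] at this
    nlinarith
  have r5 : τ * (Real.sin b4 / Real.cos b4 - -(Real.sin b4 / Real.cos b4)) =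
      τ * (2 * Real.sin b4) / Real.cos b4 := by ring
  have r6 : τ / Real.cos b4 + τ / Real.cos b4 = 2 * τ / Real.cos b4 := by ring
  rw [r5] at tot
  rw [r6] at low
  linarith

/-- law of cosines along a crossing -/
theorem law_cross {e q c p : X} (n0 : e ≠ q) (n1 : e ≠ c) (n2 : e ≠ p)
    (hb : dist q c + dist c p = dist q p) :
    pd (dist e q) (dist e p) (cang (dist e q) (dist e c) (dist q c) +
      cang (dist e c) (dist e p) (dist c p)) ≤ dist q p ∧
    (Real.pi ≤ cang (dist e q) (dist e c) (dist q c) + cang (dist e c) (dist e p) (dist c p) →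
      dist e q + dist e p ≤ dist q p) := by
  have d0 : 0 < dist e q := dist_pos.mpr n0
  have d1 : 0 < dist e c := dist_pos.mpr n1
  have d2 : 0 < dist e p := dist_pos.mpr n2
  have l1 := cang_law (x := dist e q) (y := dist e c) (z := dist q c) d0 d1
    (by have := dist_triangle q e c; rw [dist_comm q e] at this; linarith)
    (by have := dist_triangle e c q; rw [dist_comm c q] at this; linarith)
    (by have := dist_triangle e q c; linarith)
  have l2 := cang_law (x := dist e c) (y := dist e p) (z := dist c p) d1 d2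
    (by have := dist_triangle c e p; rw [dist_comm c e] at this; linarith)
    (by have := dist_triangle e p c; rw [dist_comm p c] at this; linarith)
    (by have := dist_triangle e c p; linarith)
  set θ1 := cang (dist e q) (dist e c) (dist q c)
  set θ2 := cang (dist e c) (dist e p) (dist c p)
  have e1 : pd (dist e q) (dist e c) θ1 = dist q c := by
    unfold pd; rw [← l1, Real.sqrt_sq dist_nonneg]
  have e2 : pd (dist e c) (dist e p) θ2 = dist c p := by
    unfold pd; rw [← l2, Real.sqrt_sq dist_nonneg]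
  constructor
  · have := pd_triangle (dist e q) (dist e c) (dist e p) θ1 θ2
    rw [e1, e2] at this
    linarith
  · intro hpi
    have h1 := pd_ge (dist e q) (dist e c) θ1
    have h2 := pd_ge (dist e p) (dist e c) θ2
    rw [pd_comm] at h2
    rw [e1] at h1
    rw [e2] at h2
    have := cos_add_cos_nonpos (cang_nonneg _ _ _) (cang_le_pi _ _ _) (cang_nonneg _ _ _)
      (cang_le_pi _ _ _) hpi
    nlinarith

/-- if `s` is (weakly) between `p` and `q` then Stewart holds for free -/
theorem St.of_straight {p q r s : X} (h : dist s q + dist s p ≤ dist q p) : St p q r s := by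
  unfold St
  have h1 := abs_dist_sub_le p r s
  rw [dist_comm s q, dist_comm s p] at h
  rw [dist_comm q p] at h
  have n1 := dist_nonneg (x := q) (y := s)
  have n2 := dist_nonneg (x := s) (y := r)
  have n3 := dist_nonneg (x := p) (y := s)
  have h2 : (dist p s - dist s r) ^ 2 ≤ dist p r ^ 2 := by
    rw [dist_comm r s] at h1
    rw [← sq_abs (dist p s - dist s r)]
    exact pow_le_pow_left₀ (abs_nonneg _) h1 2
  have h3 : (dist q s + dist p s) ^ 2 ≤ dist p q ^ 2 :=
    pow_le_pow_left₀ (by linarith) h 2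
  nlinarith [mul_le_mul_of_nonneg_left h2 n1, mul_le_mul_of_nonneg_left h3 n2]

/-- Step 1: Stewart at points of the intersection. -/
theorem GluePair.step1 {S T : Set X} (h : GluePair S T) {p q r s : X} (hs : s ∈ S ∩ T)
    (hp : p ∈ S ∪ T) (hq : q ∈ S ∪ T) (hr : r ∈ S ∪ T)
    (hb : dist q s + dist s r = dist q r) : St p q r s := by
  by_cases n0 : s = q
  · subst n0; unfold St; simp; 
  by_cases n4 : s = r
  · subst n4; unfold St; simp; 
  by_cases n2 : s = p
  · subst n2
    unfold St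
    rw [dist_self, dist_comm s q]
    nlinarith
  obtain ⟨c, c1, c2, hc⟩ := h.cross hq hp
  obtain ⟨d, c3, c4, hd⟩ := h.cross hp hr
  by_cases n1 : s = c
  · subst n1
    apply St.of_straight
    rw [dist_comm s q]
    linarith
  by_cases n3 : s = d
  · subst n3
    apply St.symm
    apply St.of_straight
    rw [dist_comm r p, dist_comm s p]
    linarith
  have ch := h.chain hs c1 c2 c3 c4 n0 n1 n2 n3 n4 hb
  obtain ⟨l1, l1'⟩ := law_cross n0 n1 n2 hc
  obtain ⟨l2, l2'⟩ := law_cross n2 n3 n4 hd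
  set α := cang (dist s q) (dist s c) (dist q c) + cang (dist s c) (dist s p) (dist c p) with hα
  set β := cang (dist s p) (dist s d) (dist p d) + cang (dist s d) (dist s r) (dist d r) with hβ
  by_cases hα' : Real.pi ≤ α
  · exact St.of_straight (l1' hα')
  by_cases hβ' : Real.pi ≤ β
  · apply St.symm
    apply St.of_straight
    have := l2' hβ'
    rw [dist_comm r p]
    linarith
  push Not at hα' hβ'
  have a0 : 0 ≤ α := add_nonneg (cang_nonneg _ _ _) (cang_nonneg _ _ _)
  have b0 : 0 ≤ β := add_nonneg (cang_nonneg _ _ _) (cang_nonneg _ _ _)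
  have hcc := cos_add_cos_nonpos a0 hα'.le b0 hβ'.le (by linarith)
  have m1 : dist s q ^ 2 + dist s p ^ 2 - 2 * dist s q * dist s p * Real.cos α ≤ dist q p ^ 2 := by
    have := pow_le_pow_left₀ (Real.sqrt_nonneg _) l1 2
    unfold pd at this
    rwa [Real.sq_sqrt (pd_arg_nonneg _ _ _ dist_nonneg dist_nonneg)] at this
  have m2 : dist s p ^ 2 + dist s r ^ 2 - 2 * dist s p * dist s r * Real.cos β ≤ dist p r ^ 2 := by
    have := pow_le_pow_left₀ (Real.sqrt_nonneg _) l2 2
    unfold pd at this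
    rwa [Real.sq_sqrt (pd_arg_nonneg _ _ _ dist_nonneg dist_nonneg)] at this
  unfold St
  rw [dist_comm q s, dist_comm p q, dist_comm p s]
  have k1 := dist_nonneg (x := s) (y := q)
  have k2 := dist_nonneg (x := s) (y := p)
  have k3 := dist_nonneg (x := s) (y := r)
  have k4 : 0 ≤ dist s q * dist s r * dist s p := by positivity
  nlinarith [mul_le_mul_of_nonneg_left m1 k3, mul_le_mul_of_nonneg_left m2 k1]

/-- a point of `T` between two points of `S` lies in `S` -/
theorem GluePair.convex {S T : Set X} (h : GluePair S T) {x y z : X} (hx : x ∈ S) (hy : y ∈ S)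
    (hz : z ∈ T) (hb : dist x z + dist z y = dist x y) : z ∈ S := by
  obtain ⟨a, ha, ea⟩ := h.sep x hx z hz
  obtain ⟨b, hb', eb⟩ := h.symm.sep z hz y hy
  have h1 : dist a z + dist z b = dist a b := by
    have t1 := dist_triangle a z b
    have t2 := dist_triangle x a y
    have t3 := dist_triangle a b y
    linarith
  obtain ⟨w, hw, e1, e2⟩ := h.hA a ha b ⟨hb'.2, hb'.1⟩ (dist a z) dist_nonneg
    (by rw [← h1]; linarith [dist_nonneg (x := z) (y := b)])
  have : z = w := h.hT.unique ha.2 hb'.1 hz hw.2 h1 (by linarith) e1.symm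
  rw [this]; exact hw.1

/-- Step 2: Stewart at points of `S` outside `T`. -/
theorem GluePair.step2 {S T : Set X} (h : GluePair S T) {p q r s : X} (hs : s ∈ S) (hs' : s ∉ T)
    (hp : p ∈ S ∪ T) (hq : q ∈ S ∪ T) (hr : r ∈ S ∪ T)
    (hb : dist q s + dist s r = dist q r) : St p q r s := by
  -- first the case `q, r ∈ S`
  have main : ∀ q ∈ S, ∀ r ∈ S, dist q s + dist s r = dist q r → St p q r s := by
    intro q hq r hr hb
    by_cases hpS : p ∈ S
    · exact h.hS.st p hpS q hq r hr s hs hb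
    have hpT : p ∈ T := hp.resolve_left hpS
    obtain ⟨e, he, hee⟩ := h.sep s hs p hpT
    have ne1 : s ≠ e := fun h => hs' (h ▸ he.2)
    have ne2 : e ≠ p := fun h => hpS (h ▸ he.1)
    have d1 : 0 < dist s e := dist_pos.mpr ne1
    have d2 : 0 < dist e p := dist_pos.mpr ne2
    have A1 := h.step1 (p := q) (q := s) (r := p) he (Or.inl hq) (Or.inl hs) hp hee
    have A2 := h.step1 (p := r) (q := s) (r := p) he (Or.inl hr) (Or.inl hs) hp hee
    have A3 := h.hS.st e he.1 q hq r hr s hs hb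
    unfold St at A1 A2 A3 ⊢
    have hps : dist p s = dist s e + dist e p := by rw [dist_comm, hee]
    rw [hps]
    rw [dist_comm q s, dist_comm p q] at *
    rw [dist_comm e s] at A3
    rw [dist_comm r p, dist_comm r s] at A2
    rw [dist_comm e q, dist_comm e r] at A3
    have k1 := dist_nonneg (x := s) (y := q)
    have k2 := dist_nonneg (x := s) (y := r)
    set x := dist s e
    set y := dist e p
    set Q := dist q e
    set R := dist r e
    set a := dist s q
    set b := dist s r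
    have B1 := mul_le_mul_of_nonneg_left A1 k2
    have B2 := mul_le_mul_of_nonneg_left A2 k1
    have B3 := mul_le_mul_of_nonneg_left A3 (by linarith : 0 ≤ x + y)
    have fin : x * ((a + b) * (x + y) ^ 2) ≤
        x * (b * dist q p ^ 2 + a * dist p r ^ 2 - a * b * (a + b)) := by
      nlinarith
    exact le_of_mul_le_mul_left fin d1
  -- the case `q ∈ S`
  have main2 : ∀ q ∈ S, ∀ r ∈ S ∪ T, dist q s + dist s r = dist q r → St p q r s := by
    intro q hq r hr hb
    by_cases hrS : r ∈ S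
    · exact main q hq r hrS hb
    have hrT : r ∈ T := hr.resolve_left hrS
    obtain ⟨a, ha, e⟩ := h.sep s hs r hrT
    have e1 : dist q s + dist s a = dist q a := by
      have t1 := dist_triangle q s a
      have t2 := dist_triangle q a r
      linarith
    have e2 : dist q a + dist a r = dist q r := by linarith
    exact St.comp e1 e2 (main q hq a ha.1 e1) (h.step1 ha hp (Or.inl hq) hr e2)
  by_cases hqS : q ∈ S
  · exact main2 q hqS r hr hb
  by_cases hrS : r ∈ S
  · apply St.symm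
    apply main2 r hrS q hq
    rw [dist_comm r s, dist_comm s q, dist_comm r q]; linarith
  · exact absurd (h.symm.convex (hq.resolve_left hqS) (hr.resolve_left hrS) hs hb) hs'

/-- **Reshetnyak gluing theorem.** -/
theorem GluePair.union {S T : Set X} (h : GluePair S T) : CAT0On (S ∪ T) where
  geo := by
    intro x hx y hy u h0 h1
    obtain ⟨c, c1, c2, e⟩ := h.cross hx hy
    have G : ∀ {a b : X}, Com S T a b → ∀ u : ℝ, 0 ≤ u → u ≤ dist a b →
        ∃ z ∈ S ∪ T, dist a z = u ∧ dist z b = dist a b - u := by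
      rintro a b (⟨ha, hb⟩ | ⟨ha, hb⟩) u h0 h1
      · obtain ⟨z, hz, e⟩ := h.hS.geo a ha b hb u h0 h1
        exact ⟨z, Or.inl hz, e⟩
      · obtain ⟨z, hz, e⟩ := h.hT.geo a ha b hb u h0 h1
        exact ⟨z, Or.inr hz, e⟩
    by_cases hu : u ≤ dist x c
    · obtain ⟨z, hz, e1, e2⟩ := G c1 u h0 hu
      refine ⟨z, hz, e1, ?_⟩
      have t1 := dist_triangle x z y
      have t2 := dist_triangle z c y
      linarith
    · push Not at hu
      obtain ⟨z, hz, e1, e2⟩ := G c2 (u - dist x c) (by linarith) (by linarith)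
      have t1 := dist_triangle x z y
      have t2 := dist_triangle x c z
      exact ⟨z, hz, by linarith, by linarith⟩
  st := by
    intro p hp q hq r hr s hs hb
    by_cases h1 : s ∈ S <;> by_cases h2 : s ∈ T
    · exact h.step1 ⟨h1, h2⟩ hp hq hr hb
    · exact h.step2 h1 h2 hp hq hr hb
    · exact h.symm.step2 h2 h1 hp.symm hq.symm hr.symm hb
    · exact absurd hs (by simp [h1, h2])

/-- directed unions -/
theorem CAT0On.iUnion {ι : Type*} [Nonempty ι] (S : ι → Set X) (hd : Directed (· ⊆ ·) S)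
    (h : ∀ i, CAT0On (S i)) : CAT0On (⋃ i, S i) where
  geo := by
    intro x hx y hy u h0 h1
    obtain ⟨i, hi⟩ := mem_iUnion.mp hx
    obtain ⟨j, hj⟩ := mem_iUnion.mp hy
    obtain ⟨k, hk1, hk2⟩ := hd i j
    obtain ⟨z, hz, e⟩ := (h k).geo x (hk1 hi) y (hk2 hj) u h0 h1
    exact ⟨z, mem_iUnion.mpr ⟨k, hz⟩, e⟩
  st := by
    intro p hp q hq r hr s hs hb
    obtain ⟨i, hi⟩ := mem_iUnion.mp hp
    obtain ⟨j, hj⟩ := mem_iUnion.mp hq
    obtain ⟨k, hk⟩ := mem_iUnion.mp hr
    obtain ⟨l, hl⟩ := mem_iUnion.mp hs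
    obtain ⟨m, m1, m2⟩ := hd i j
    obtain ⟨n, n1, n2⟩ := hd k l
    obtain ⟨o, o1, o2⟩ := hd m n
    exact (h o).st p (o1 (m1 hi)) q (o1 (m2 hj)) r (o2 (n1 hk)) s (o2 (n2 hl)) hb

end SqGeo
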